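import Pool.Agent.Helper92.BW.GoalsB

/-!
Project BW (MP_481f43_lc), packet ABV: ancestors and the first variable of a row.
-/

namespace Pool.Agent.Helper19.BW

open Pool.Agent.Helper81.CC Pool.Agent.Bin Pool.Agent.Helper92.VP
open Pool.Agent.Helper92.FR hiding DepStmt
open Pool.Agent.Helper92.BW

theorem qnz_iff' (x : Qn) : qnz x = true ↔ Qn.val x ≠ 0 := by
  unfold qnz
  rw [decide_eq_true_iff]
  refine not_congr ?_
  unfold Qn.val
  rw [div_eq_zero_iff]
  have h1 := Qn.den_pos x
  constructor
  · intro h
    left
    rw [h, sub_self]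
  · rintro (h | h)
    · rw [sub_eq_zero] at h
      exact BN.ext (by exact_mod_cast h)
    · exact absurd h h1.ne'

theorem clm_zero (n : ℕ) (par : List ℕ) (i : ℕ) : clm n par i 0 = i := rfl

theorem clm_succ (n : ℕ) (par : List ℕ) (i t : ℕ) : clm n par i (t + 1) =
    if clm n par i t < n then min (par.getD (clm n par i t) (clm n par i t)) n else n := by
  unfold clm
  rw [List.range_succ, List.foldl_append]
  rfl

theorem getD_big (par : List ℕ) (x : ℕ) (h : par.length ≤ x) : par.getD x x = x :=
  List.getD_eq_default _ _ h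

theorem clm_eq (n : ℕ) (par : List ℕ) (hl : par.length = n) (i : ℕ) (hi : i ≤ n) (t : ℕ) :
    clm n par i t = min ((fun x => par.getD x x)^[t] i) n := by
  induction t with
  | zero =>
    rw [clm_zero]
    exact (min_eq_left hi).symm
  | succ t ih =>
    rw [clm_succ, Function.iterate_succ_apply', ih]
    rcases lt_or_ge ((fun x => par.getD x x)^[t] i) n with h | h
    · rw [min_eq_left h.le, if_pos h]
    · rw [min_eq_right h, if_neg (lt_irrefl n)]
      show n = min (par.getD ((fun x => par.getD x x)^[t] i) ((fun x => par.getD x x)^[t] i)) n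
      rw [getD_big par _ (by omega)]
      exact (min_eq_right h).symm

theorem iter_ge (n : ℕ) (par : List ℕ) (hl : par.length = n) (hp : ∀ i < n, i < par.getD i i)
    (i t : ℕ) (h : (fun x => par.getD x x)^[t] i < n) : t ≤ (fun x => par.getD x x)^[t] i := by
  induction t with
  | zero => exact Nat.zero_le _
  | succ t ih =>
    rw [Function.iterate_succ_apply'] at h ⊢
    rcases lt_or_ge ((fun x => par.getD x x)^[t] i) n with h1 | h1
    · have h2 := ih h1
      have h3 := hp _ h1
      show t + 1 ≤ par.getD ((fun x => par.getD x x)^[t] i) ((fun x => par.getD x x)^[t] i)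
      omega
    · exfalso
      have h4 : par.getD ((fun x => par.getD x x)^[t] i) ((fun x => par.getD x x)^[t] i) =
        (fun x => par.getD x x)^[t] i := getD_big par _ (by omega)
      have h5 : par.getD ((fun x => par.getD x x)^[t] i) ((fun x => par.getD x x)^[t] i) < n := h
      omega

theorem abv_part (n : ℕ) (par : List ℕ) (hl : par.length = n) (hp : ∀ i < n, i < par.getD i i)
    (i : ℕ) (hi : i ≤ n) (j : ℕ) (hj : j < n) : abvB n par i j = true ↔ Above par i j := by
  unfold abvB Above
  rw [List.any_eq_true]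
  constructor
  · rintro ⟨t, _, ht⟩
    rw [decide_eq_true_iff, clm_eq n par hl i hi] at ht
    refine ⟨t, ?_⟩
    omega
  · rintro ⟨t, ht⟩
    refine ⟨t, ?_, ?_⟩
    · rw [List.mem_range]
      have h1 := iter_ge n par hl hp i t (by rw [ht]; exact hj)
      rw [ht] at h1
      omega
    · rw [decide_eq_true_iff, clm_eq n par hl i hi, ht]
      exact min_eq_left hj.le

theorem lowr_part (n : ℕ) (r : List Qn × Qn) : lowr n r ≤ n ∧
    (lowr n r < n → (r.1.getD (lowr n r) Qn.zero).val ≠ 0) ∧
    ∀ j < lowr n r, (r.1.getD j Qn.zero).val = 0 := by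
  unfold lowr
  cases h : (List.range n).find? (fun j => qnz (r.1.getD j Qn.zero)) with
  | none =>
    rw [List.find?_eq_none] at h
    simp only [Option.getD_none]
    refine ⟨le_rfl, fun h1 => absurd h1 (lt_irrefl n), ?_⟩
    intro j hj
    have h1 := h j (List.mem_range.2 hj)
    by_contra h2
    exact h1 ((qnz_iff' _).2 h2)
  | some a =>
    rw [List.find?_range_eq_some] at h
    obtain ⟨h1, h2, h3⟩ := h
    simp only [Option.getD_some]
    rw [List.mem_range] at h2
    refine ⟨h2.le, fun _ => (qnz_iff' _).1 h1, ?_⟩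
    intro j hj
    have h4 := h3 j hj
    by_contra h5
    rw [(qnz_iff' _).2 h5] at h4
    simp at h4

theorem abv : AbvStmt :=
  ⟨fun n par hl hp i hi j hj => abv_part n par hl hp i hi j hj, lowr_part⟩

end Pool.Agent.Helper19.BW
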