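import Pool.Agent.Helper92.BW.GoalsA

/-!
Project BW (MP_481f43_lc), packet TLM: translation of messages.
-/

namespace Pool.Agent.Helper19.BW

open MeasureTheory
open scoped ENNReal
open Pool.Agent.Helper92.BW

noncomputable section

lemma le_iter {par : ℕ → ℕ} (h : ∀ i, i ≤ par i) (t : ℕ) (i : ℕ) : i ≤ par^[t] i := by
  induction t with
  | zero => exact le_rfl
  | succ t ih =>
    rw [Function.iterate_succ_apply']
    exact ih.trans (h _)

lemma abv_le {par : ℕ → ℕ} (h : ∀ i, i ≤ par i) {i j : ℕ} (hij : Abv par i j) : i ≤ j := by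
  obtain ⟨t, rfl⟩ := hij
  exact le_iter h t i

lemma abv_refl (par : ℕ → ℕ) (i : ℕ) : Abv par i i := ⟨0, rfl⟩

lemma abv_par {par : ℕ → ℕ} {i j : ℕ} (hij : Abv par i j) : Abv par i (par j) := by
  obtain ⟨t, rfl⟩ := hij
  exact ⟨t + 1, by rw [Function.iterate_succ_apply']⟩

/-- Two elements above `i`: if `c' < j` then `j` is above the parent of `c'`. -/
lemma abv_cmp {par : ℕ → ℕ} (h : ∀ i, i ≤ par i) {i c' j : ℕ} (h1 : Abv par i c')
    (h2 : Abv par i j) (hlt : c' < j) : Abv par (par c') j := by
  obtain ⟨s, rfl⟩ := h1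
  obtain ⟨t, rfl⟩ := h2
  rcases le_or_gt t s with hts | hst
  · exfalso
    have h3 : par^[s] i = par^[s - t] (par^[t] i) := by
      rw [← Function.iterate_add_apply, Nat.sub_add_cancel hts]
    have h4 := le_iter h (s - t) (par^[t] i)
    rw [← h3] at h4
    omega
  · refine ⟨t - s - 1, ?_⟩
    rw [← Function.iterate_succ_apply' par s i, ← Function.iterate_add_apply]
    congr 2
    omega

lemma ip_add {n : ℕ} (x y z : Fin n → ℝ) : ip x (y + z) = ip x y + ip x z := by
  unfold ip
  rw [← Finset.sum_add_distrib]
  exact Finset.sum_congr rfl (fun j _ => by rw [Pi.add_apply, mul_add])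

lemma ind_le {n : ℕ} {ι : Type} (a : ι → Fin n → ℝ) (s : ι → ℝ) (τ δ : ℝ) (r : ι)
    (u u' W : Fin n → ℝ) (hW : -(δ * s r) ≤ ip (a r) W) (h : ip (a r) u' = ip (a r) u + ip (a r) W) :
    ind a s τ r u ≤ ind a s (τ + δ) r u' := by
  unfold ind
  by_cases h1 : -(τ * s r) ≤ ip (a r) u
  · rw [if_pos h1, if_pos]
    rw [h, add_mul]
    linarith
  · rw [if_neg h1]
    exact zero_le

theorem part1 (n : ℕ) (ι : Type) [Fintype ι] (par : ℕ → ℕ) (low : ι → Fin n)
    (a : ι → Fin n → ℝ) (s : ι → ℝ) (hch : Chain par low a) (τ δ : ℝ) (W : Fin n → ℝ)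
    (hW : W ∈ PS a s δ) : ∀ (m : ℕ) (c : Fin n), c.val = m → ∀ (u u' : Fin n → ℝ),
    (∀ r, Abv par (low r) c → ∑ j, (if c < j then a r j * (u' j - u j - W j) else 0) = 0) →
    msg par low a s τ c u ≤ msg par low a s (τ + δ) c u' := by
  obtain ⟨hpar, hpar', hrow⟩ := hch
  intro m
  induction m using Nat.strong_induction_on with
  | _ m ih =>
    intro c hc u u' hH
    rw [msg_eq par low a s τ c u, msg_eq par low a s (τ + δ) c u']
    rw [← lintegral_add_right_eq_self (fun t : ℝ =>
      (∏ r ∈ Finset.univ.filter (fun r => low r = c),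
        ind a s (τ + δ) r (Function.update u' c t)) *
      ∏ c' : Ch par c, msg par low a s (τ + δ) c'.1 (Function.update u' c t)) (W c)]
    refine lintegral_mono (fun t => ?_)
    refine mul_le_mul' (Finset.prod_le_prod' ?_) (Finset.prod_le_prod' ?_)
    · intro r hr
      rw [Finset.mem_filter] at hr
      have hlow : low r = c := hr.2
      refine ind_le a s τ δ r _ _ W (hW r) ?_
      have h0 : Abv par (low r) c := by rw [hlow]; exact abv_refl par c
      have h1 := hH r h0
      have h2 : ∑ j, a r j * (Function.update u' c (t + W c) j - Function.update u c t j - W j)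
          = 0 := by
        rw [← h1]
        refine Finset.sum_congr rfl (fun j _ => ?_)
        by_cases haj : a r j = 0
        · rw [haj, zero_mul, zero_mul, ite_self]
        · have h3 := abv_le hpar (hrow r j haj)
          rw [hlow] at h3
          have h3' : c ≤ j := h3
          rcases h3'.eq_or_lt with h4 | h4
          · subst h4
            rw [Function.update_self, Function.update_self, if_neg (lt_irrefl _)]
            ring
          · rw [if_pos h4, Function.update_of_ne h4.ne', Function.update_of_ne h4.ne']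
      unfold ip
      rw [← Finset.sum_add_distrib]
      have h5 : ∑ j, a r j * (Function.update u' c (t + W c) j - Function.update u c t j - W j)
          = ∑ j, a r j * Function.update u' c (t + W c) j -
            ∑ j, (a r j * Function.update u c t j + a r j * W j) := by
        rw [← Finset.sum_sub_distrib]
        exact Finset.sum_congr rfl (fun j _ => by ring)
      rw [h5] at h2
      linarith
    · intro c' _
      have hlt : c'.1 < c := c'.2.1
      have hpc : par c'.1 = c := c'.2.2
      refine ih c'.1.val (by rw [← hc]; exact hlt) c'.1 rfl _ _ ?_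
      intro r hr
      have h0 : Abv par (low r) c := by
        have h := abv_par hr
        rwa [hpc] at h
      refine Eq.trans ?_ (hH r h0)
      refine Finset.sum_congr rfl (fun j _ => ?_)
      by_cases haj : a r j = 0
      · rw [haj, zero_mul, zero_mul, ite_self, ite_self]
      · by_cases hcj : c'.1 < j
        · have h1 := abv_le hpar (abv_cmp hpar hr (hrow r j haj) hcj)
          rw [hpc] at h1
          have h1' : c ≤ j := h1
          rw [if_pos hcj]
          rcases h1'.eq_or_lt with h4 | h4
          · subst h4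
            rw [Function.update_self, Function.update_self, if_neg (lt_irrefl _)]
            ring
          · rw [if_pos h4, Function.update_of_ne h4.ne', Function.update_of_ne h4.ne']
        · rw [if_neg hcj, if_neg (fun h => hcj (hlt.trans h))]

theorem tlm : TlmStmt := by
  intro n ι _ par low a s hch
  have h1 : ∀ (τ δ : ℝ) (c : Fin n) (u u' W : Fin n → ℝ), W ∈ PS a s δ →
    (∀ r, Abv par (low r) c → ∑ j, (if c < j then a r j * (u' j - u j - W j) else 0) = 0) →
    msg par low a s τ c u ≤ msg par low a s (τ + δ) c u' :=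
    fun τ δ c u u' W hW hH => part1 n ι par low a s hch τ δ W hW c.val c rfl u u' hH
  refine ⟨h1, ?_⟩
  intro hs τ τ' c u hτ
  have h2 := h1 τ (τ' - τ) c u u 0 (by
    intro r
    have h3 : ip (a r) (0 : Fin n → ℝ) = 0 := by
      unfold ip
      exact Finset.sum_eq_zero (fun j _ => by rw [Pi.zero_apply, mul_zero])
    rw [h3]
    have h4 := mul_nonneg (sub_nonneg.2 hτ) (hs r)
    linarith) (by
    intro r _
    refine Finset.sum_eq_zero (fun j _ => ?_)
    rw [Pi.zero_apply, sub_self, sub_zero, mul_zero, ite_self])
  rwa [add_sub_cancel] at h2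

end

end Pool.Agent.Helper19.BW
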